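import Pool.Agent.helper47.VD.SpecA1b

/-!
# Project VD (MP_07c750_an), row AFHL: the Laplacian of a `C²` function in `FH` is in `FH`
-/

set_option autoImplicit false

open scoped ContDiff Topology InnerProductSpace ComplexConjugate ENNReal
open MeasureTheory Filter Set

namespace Pool.Agent.VD

open Pool.Agent.VQ (CH)

noncomputable section

theorem AFHL_cont {d : ℕ} {G : V d → V d →L[ℝ] V d} (hd : ContDiff ℝ ∞ (dens G)) (hpos : ∀ x, 0 < dens G x)
    (hIG : ContDiff ℝ ∞ (IG G)) {φ : V d → ℂ} (hφ : ContDiff ℝ 2 φ) : Continuous (lap G φ) := by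
  have h1 : ∀ i : Fin d, ContDiff ℝ 1 (fun y => ((dens G y : ℝ) : ℂ) * fderiv ℝ φ y ((G y).inverse (EuclideanSpace.single i 1))) := by
    intro i
    have e1 : ContDiff ℝ 1 (fun y => ((dens G y : ℝ) : ℂ)) := Complex.ofRealCLM.contDiff.comp (hd.of_le (by exact_mod_cast le_top))
    have e2 : ContDiff ℝ 1 (fun y => (G y).inverse (EuclideanSpace.single i 1 : V d)) :=
      ((hIG.of_le (by exact_mod_cast le_top) : ContDiff ℝ 1 (IG G))).clm_apply contDiff_const
    have e3 : ContDiff ℝ 1 (fderiv ℝ φ) := hφ.fderiv_right (by norm_num)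
    exact e1.mul (e3.clm_apply e2)
  unfold lap
  refine Continuous.mul ?_ ?_
  · exact Complex.continuous_ofReal.comp (hd.continuous.inv₀ fun x => (hpos x).ne')
  · refine continuous_finsetSum _ fun i _ => ?_
    exact ((h1 i).continuous_fderiv (by norm_num)).clm_apply continuous_const

theorem AFHL_zero {d : ℕ} {G : V d → V d →L[ℝ] V d} {φ : V d → ℂ} {U : Set (V d)} (hU : IsOpen U) (h0 : ∀ y ∈ U, φ y = 0)
    {z : V d} (hz : z ∈ U) : lap G φ z = 0 := by
  unfold lap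
  rw [Finset.sum_eq_zero, mul_zero]
  intro i _
  have h1 : (fun y => ((dens G y : ℝ) : ℂ) * fderiv ℝ φ y ((G y).inverse (EuclideanSpace.single i 1))) =ᶠ[𝓝 z] fun _ => (0 : ℂ) := by
    filter_upwards [hU.mem_nhds hz] with y hy
    have h2 : φ =ᶠ[𝓝 y] fun _ => (0 : ℂ) := by
      filter_upwards [hU.mem_nhds hy] with w hw using h0 w hw
    rw [h2.fderiv_eq]
    simp
  rw [h1.fderiv_eq]
  simp

theorem AFHL_proof (h1 : AMVI_stmt) (h2 : AHLD_stmt) : AFHL_stmt := by
  intro d Γ _ _ K k B G hK hG Λ F T hD φ hφ hφ2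
  obtain ⟨-, hd, hpos, -, -, -, -, -, hlap⟩ := h1 d Γ K k B G hK hG
  obtain ⟨C, -, hC⟩ := h2 d Γ K k B 0 0
  obtain ⟨-, -, hIG, -, -⟩ := hC G hK hG
  refine ⟨AFHL_cont hd hpos hIG hφ2, ?_, ?_⟩
  · intro γ hγ z
    rw [← hlap φ γ z hφ2]
    have e : (fun y => φ (γ • y)) = φ := funext fun y => hφ.inv γ hγ y
    rw [e]
  · rcases hD with ⟨-, hF, -⟩ | ⟨-, hF, -⟩
    · obtain ⟨b, hb⟩ := hF.bdd
      exact ⟨b, fun z hz _ => hb z hz⟩
    · obtain ⟨b, hb⟩ := hφ.supp
      refine ⟨b, fun z _ hz => ?_⟩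
      by_contra hcon
      push Not at hcon
      refine hz (AFHL_zero (U := {y | b < ‖y‖}) (isOpen_lt continuous_const continuous_norm) ?_ hcon)
      intro y hy
      by_contra hne
      have h3 := hb y (by rw [hF]; exact mem_univ y) hne
      exact absurd hy (not_lt.2 h3)

end

end Pool.Agent.VD
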