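import Pool.Agent.helper80.VD.SpecD

/-!
# Project VD (MP_07c750_an), row DFD: a fundamental domain
-/

set_option autoImplicit false

open scoped ContDiff Topology InnerProductSpace
open MeasureTheory Filter Set

namespace Pool.Agent.VD

noncomputable section

theorem DFD_countable {d : ℕ} {Γ : Type} [Group Γ] [MulAction Γ (V d)] {K : Set (V d)} (hK : FdK Γ K) : Countable Γ := by
  obtain ⟨γ0, hγ0⟩ := hK.cover 0
  have h : (univ : Set Γ) ⊆ ⋃ n : ℕ, {γ : Γ | ∃ x ∈ K ∪ Metric.closedBall (0 : V d) n, γ • x ∈ K ∪ Metric.closedBall (0 : V d) n} := by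
    intro γ _
    obtain ⟨n, hn⟩ := exists_nat_ge ‖γ • γ0 • (0 : V d)‖
    rw [mem_iUnion]
    refine ⟨n, γ0 • (0 : V d), Or.inl hγ0, Or.inr ?_⟩
    rw [mem_closedBall_zero_iff]
    exact hn
  rw [← countable_univ_iff]
  refine Countable.mono h (countable_iUnion fun n => ?_)
  exact (hK.proper _ (hK.compact.union (isCompact_closedBall _ _))).countable

/-- a neighbourhood which meets none of its translates -/
theorem DFD_nhd {d : ℕ} {Γ : Type} [Group Γ] [MulAction Γ (V d)] {K : Set (V d)} (hK : FdK Γ K) (x : V d) :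
    ∃ U : Set (V d), IsOpen U ∧ x ∈ U ∧ ∀ γ : Γ, (∃ y ∈ U, γ • y ∈ U) → γ = 1 := by
  classical
  set S : Set Γ := {γ : Γ | ∃ y ∈ Metric.closedBall x 1, γ • y ∈ Metric.closedBall x 1} with hS
  have hSf : S.Finite := hK.proper _ (isCompact_closedBall _ _)
  have hW : ∀ γ : Γ, ∃ W : Set (V d), IsOpen W ∧ x ∈ W ∧ (γ ≠ 1 → ∀ y ∈ W, γ • y ∉ W) := by
    intro γ
    by_cases hγ : γ = 1
    · exact ⟨univ, isOpen_univ, mem_univ _, fun h => absurd hγ h⟩
    · have hne : γ • x ≠ x := fun h => hγ (hK.free γ x h)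
      obtain ⟨U1, U2, h1, h2, h3, h4, h5⟩ := t2_separation hne
      have hc : Continuous fun y : V d => γ • y := (hK.smooth γ).continuous
      refine ⟨(fun y : V d => γ • y) ⁻¹' U1 ∩ U2, (h1.preimage hc).inter h2, ⟨h3, h4⟩, ?_⟩
      rintro - y ⟨hy1, hy2⟩ ⟨-, hy3⟩
      exact h5.le_bot ⟨hy1, hy3⟩
  choose W hWo hWx hWn using hW
  refine ⟨Metric.ball x 1 ∩ ⋂ γ ∈ S, W γ, ?_, ⟨Metric.mem_ball_self one_pos, ?_⟩, ?_⟩
  · exact Metric.isOpen_ball.inter (hSf.isOpen_biInter fun γ _ => hWo γ)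
  · exact mem_iInter₂.2 fun γ _ => hWx γ
  · rintro γ ⟨y, ⟨hy1, hy2⟩, hy3, hy4⟩
    by_contra hγ
    have hγS : γ ∈ S := ⟨y, Metric.ball_subset_closedBall hy1, Metric.ball_subset_closedBall hy3⟩
    exact hWn γ hγ y (mem_iInter₂.1 hy2 γ hγS) (mem_iInter₂.1 hy4 γ hγS)

theorem DFD_proof : DFD_stmt := by
  intro d Γ _ _ K hK
  have hcount := DFD_countable hK
  refine ⟨hcount, ?_⟩
  choose U hUo hUx hUn using DFD_nhd hK
  obtain ⟨γ0, hγ0⟩ := hK.cover 0
  obtain ⟨t, ht⟩ := hK.compact.elim_finite_subcover (fun x : V d => U x) hUo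
    (fun x _ => mem_iUnion.2 ⟨x, hUx x⟩)
  have htne : (t : Set (V d)).Nonempty := by
    obtain ⟨x, hx, -⟩ := mem_iUnion₂.1 (ht hγ0)
    exact ⟨x, hx⟩
  obtain ⟨f, hf⟩ := (t.countable_toSet).exists_eq_range htne
  set A : ℕ → Set (V d) := fun n => K ∩ U (f n) with hA
  have hAm : ∀ n, MeasurableSet (A n) := fun n =>
    hK.compact.isClosed.measurableSet.inter (hUo (f n)).measurableSet
  have hAc : ∀ y ∈ K, ∃ n, y ∈ A n := by
    intro y hy
    obtain ⟨x, hx, hyx⟩ := mem_iUnion₂.1 (ht hy)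
    have hx' : x ∈ range f := by
      rw [← hf]
      exact hx
    obtain ⟨n, rfl⟩ := hx'
    exact ⟨n, hy, hyx⟩
  set F : ℕ → Set (V d) := fun n => A n ∩ ⋂ j : ℕ, ⋂ γ : Γ, {y | j < n → γ • y ∉ A j} with hF
  have hFm : ∀ n, MeasurableSet (F n) := by
    intro n
    refine (hAm n).inter (MeasurableSet.iInter fun j => MeasurableSet.iInter fun γ => ?_)
    by_cases hj : j < n
    · have e : {y : V d | j < n → γ • y ∉ A j} = ((fun y : V d => γ • y) ⁻¹' A j)ᶜ := by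
        ext y
        simp [hj]
      rw [e]
      exact (((hK.smooth γ).continuous.measurable) (hAm j)).compl
    · have e : {y : V d | j < n → γ • y ∉ A j} = univ := by
        ext y
        simp [hj]
      rw [e]
      exact MeasurableSet.univ
  have hFmem : ∀ n y, y ∈ F n ↔ y ∈ A n ∧ ∀ j < n, ∀ γ : Γ, γ • y ∉ A j := by
    intro n y
    rw [hF]
    simp only [mem_inter_iff, mem_iInter, mem_setOf_eq]
    constructor
    · rintro ⟨h1, h2⟩
      exact ⟨h1, fun j hj γ => h2 j γ hj⟩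
    · rintro ⟨h1, h2⟩
      exact ⟨h1, fun j γ hj => h2 j hj γ⟩
  refine ⟨⋃ n, F n, MeasurableSet.iUnion hFm, ?_, ?_⟩
  · intro y hy
    obtain ⟨n, hn⟩ := mem_iUnion.1 hy
    exact ((hFmem n y).1 hn).1.1
  intro x
  classical
  have hex : ∃ n, ∃ γ : Γ, γ • x ∈ A n := by
    obtain ⟨γ, hγ⟩ := hK.cover x
    obtain ⟨n, hn⟩ := hAc _ hγ
    exact ⟨n, γ, hn⟩
  obtain ⟨γ, hγ⟩ := Nat.find_spec hex
  have hmin : ∀ j < Nat.find hex, ∀ δ : Γ, δ • x ∉ A j := by
    intro j hj δ hδ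
    exact Nat.find_min hex hj ⟨δ, hδ⟩
  refine ⟨γ, ?_, ?_⟩
  · refine mem_iUnion.2 ⟨Nat.find hex, (hFmem _ _).2 ⟨hγ, ?_⟩⟩
    intro j hj δ
    rw [smul_smul]
    exact hmin j hj _
  · intro δ hδ
    obtain ⟨m, hm⟩ := mem_iUnion.1 hδ
    obtain ⟨h1, h2⟩ := (hFmem _ _).1 hm
    have hmn : m = Nat.find hex := by
      rcases lt_trichotomy m (Nat.find hex) with h | h | h
      · exact absurd h1 (hmin m h δ)
      · exact h
      · refine absurd ?_ (h2 _ h (γ * δ⁻¹))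
        rw [smul_smul, inv_mul_cancel_right]
        exact hγ
    rw [hmn] at h1
    have h3 : δ * γ⁻¹ = 1 := by
      refine hUn (f (Nat.find hex)) (δ * γ⁻¹) ⟨γ • x, hγ.2, ?_⟩
      rw [smul_smul, inv_mul_cancel_right]
      exact h1.2
    exact mul_inv_eq_one.1 h3

end

end Pool.Agent.VD
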