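import Pool.Agent.helper80.VD.SpecF

/-!
# Project VD (MP_07c750_an), row GLP: Lipschitz and Taylor bounds for the geodesic flow in a chart
-/

set_option autoImplicit false

open scoped ContDiff Topology InnerProductSpace
open MeasureTheory Filter Set

namespace Pool.Agent.VD

noncomputable section

theorem GLP_smooth {d : ℕ} {G : V d → V d →L[ℝ] V d} {Φ : ℝ → P d → P d} (hF : IsFlow G Φ) (t : ℝ) : ContDiff ℝ ∞ (Φ t) := by
  have h : Φ t = (fun q : ℝ × P d => Φ q.1 q.2) ∘ fun p => (t, p) := rfl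
  rw [h]
  exact hF.smooth.comp (contDiff_const.prodMk contDiff_id)

/-- the norm stays below `2` near a point where it is at most `3/2` -/
theorem GLP_nrm (hGXH : GXH_stmt) (hGUX : GUX_stmt) (hGNR : GNR_stmt) (d : ℕ) (B : ℕ → ℕ → ℝ) (m : ℕ) :
    ∃ c : ℝ, 0 < c ∧ c ≤ 1 ∧ ∀ G : V d → V d →L[ℝ] V d, IsMetric G → (∀ (m : ℕ) (x u : V d), ‖x‖ ≤ m → ‖u‖ ^ 2 ≤ B m 0 * ⟪G x u, u⟫_ℝ) →
      (∀ (m n : ℕ) (x : V d), ‖x‖ ≤ m → ‖iteratedFDeriv ℝ n G x‖ ≤ B m n) →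
      ∀ p q : P d, ‖p.1‖ ≤ m → nrm G p ≤ 3 / 2 → ‖q - p‖ ≤ c → ‖q.1‖ ≤ (m + 1 : ℕ) ∧ nrm G q ≤ 2 := by
  obtain ⟨C, hC1, hC⟩ := hGNR d B m
  obtain ⟨D, hD⟩ := hGUX d B (m + 1) 0 (C * (3 / 2) + 1)
  set E : ℝ := max D 1 with hE
  have hE1 : 1 ≤ E := le_max_right _ _
  have hED : D ≤ E := le_max_left _ _
  refine ⟨7 / (16 * E), by positivity, ?_, ?_⟩
  · rw [div_le_one (by positivity)]
    linarith
  intro G hG hlo hbd p q hp hnp hq
  have hc1 : 7 / (16 * E) ≤ 1 := by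
    rw [div_le_one (by positivity)]
    linarith
  obtain ⟨hHs, -, -, hnr, -, hHd, -⟩ := hGXH d G hG
  have hp2 : ‖p.2‖ ≤ C * (3 / 2) :=
    (hC G hG hlo hbd p hp).1.trans (mul_le_mul_of_nonneg_left hnp (by linarith))
  -- the ball around `p`
  set S : Set (P d) := Metric.closedBall p (7 / (16 * E)) with hS
  have hSn : ∀ w ∈ S, ‖w.1‖ ≤ (m + 1 : ℕ) ∧ ‖w.2‖ ≤ C * (3 / 2) + 1 := by
    intro w hw
    rw [hS, Metric.mem_closedBall, dist_eq_norm] at hw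
    have h1 : ‖(w - p).1‖ ≤ 1 := (norm_fst_le _).trans (hw.trans hc1)
    have h2 : ‖(w - p).2‖ ≤ 1 := (norm_snd_le _).trans (hw.trans hc1)
    constructor
    · have e : w.1 = p.1 + (w - p).1 := by rw [Prod.fst_sub]; abel
      rw [e]
      refine (norm_add_le _ _).trans ?_
      push_cast
      linarith
    · have e : w.2 = p.2 + (w - p).2 := by rw [Prod.snd_sub]; abel
      rw [e]
      refine (norm_add_le _ _).trans ?_
      linarith
  have hbound : ∀ w ∈ S, ‖fderiv ℝ (Ham G) w‖ ≤ 2 * E := by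
    intro w hw
    obtain ⟨w1, w2⟩ := hSn w hw
    have h1 := hD G hG hlo hbd w w1 w2
    rw [norm_iteratedFDeriv_zero] at h1
    have h2 : ‖XH G w‖ ≤ E := h1.trans hED
    refine ContinuousLinearMap.opNorm_le_bound _ (by positivity) fun v => ?_
    rw [hHd w v]
    have e1 : ‖vel G w‖ ≤ E := (norm_fst_le (XH G w)).trans h2
    have e2 : ‖(XH G w).2‖ ≤ E := (norm_snd_le (XH G w)).trans h2
    have e3 : |⟪vel G w, v.2⟫_ℝ| ≤ E * ‖v‖ :=
      (abs_real_inner_le_norm _ _).trans (mul_le_mul e1 (norm_snd_le v) (norm_nonneg _) (by positivity))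
    have e4 : |⟪(XH G w).2, v.1⟫_ℝ| ≤ E * ‖v‖ :=
      (abs_real_inner_le_norm _ _).trans (mul_le_mul e2 (norm_fst_le v) (norm_nonneg _) (by positivity))
    rw [Real.norm_eq_abs]
    refine (abs_sub _ _).trans ?_
    linarith
  have hdiff : ∀ w ∈ S, DifferentiableAt ℝ (Ham G) w := fun w _ => (hHs.differentiable (by simp)).differentiableAt
  have hpS : p ∈ S := Metric.mem_closedBall_self (by positivity)
  have hqS : q ∈ S := by
    rw [hS, Metric.mem_closedBall, dist_eq_norm]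
    exact hq
  have hmv := (convex_closedBall p (7 / (16 * E))).norm_image_sub_le_of_norm_fderiv_le hdiff hbound hpS hqS
  refine ⟨(hSn q hqS).1, ?_⟩
  have h1 : |Ham G q - Ham G p| ≤ 7 / 8 := by
    rw [← Real.norm_eq_abs]
    refine hmv.trans ?_
    calc 2 * E * ‖q - p‖ ≤ 2 * E * (7 / (16 * E)) := mul_le_mul_of_nonneg_left hq (by positivity)
      _ = 7 / 8 := by field_simp; norm_num
  have h2 := hnr q
  have h3 := hnr p
  have h4 : 0 ≤ nrm G p := Real.sqrt_nonneg _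
  have h5 : nrm G p ^ 2 ≤ (3 / 2) ^ 2 := pow_le_pow_left₀ h4 hnp 2
  have h6 : nrm G q ^ 2 ≤ 2 ^ 2 := by
    have := (abs_le.1 h1).2
    rw [h2]
    nlinarith
  exact (pow_le_pow_iff_left₀ (Real.sqrt_nonneg _) (by norm_num) (by norm_num)).1 h6

theorem GLP_proof (hGDB : GDB_stmt) (hGNR : GNR_stmt) (hGUN : GUN_stmt) (hGXH : GXH_stmt) (hGUX : GUX_stmt) : GLP_stmt := by
  intro d Γ _ _ K k B hK m T
  obtain ⟨c, hc, hc1, hnr⟩ := GLP_nrm hGXH hGUX hGNR d B m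
  obtain ⟨D, hD⟩ := hGDB d Γ K k B hK (m + 1) 2 T
  set E : ℝ := max D 1 with hE
  have hE1 : 1 ≤ E := le_max_right _ _
  have hED : D ≤ E := le_max_left _ _
  have hE2 : E ≤ E ^ 2 := by nlinarith
  refine ⟨c, E ^ 2, hc, one_le_pow₀ hE1, ?_⟩
  intro G Φ hG hF p q s t hp hnp hq ht hs
  have hmet := hG.met
  obtain ⟨hC1, -, -, -⟩ := hGUN d G Φ hmet hF
  have hp' : ‖p.1‖ ≤ (m + 1 : ℕ) := by
    push_cast
    linarith
  have hnp' : nrm G p ≤ 2 := by linarith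
  -- on the segment
  have hseg : ∀ w ∈ segment ℝ p q, ‖w.1‖ ≤ (m + 1 : ℕ) ∧ nrm G w ≤ 2 ∧ ‖w - p‖ ≤ ‖q - p‖ := by
    intro w hw
    have h1 : ‖w - p‖ ≤ ‖q - p‖ := by
      rw [segment_eq_image'] at hw
      obtain ⟨θ, hθ, rfl⟩ := hw
      rw [add_sub_cancel_left, norm_smul, Real.norm_eq_abs, abs_of_nonneg hθ.1]
      exact mul_le_of_le_one_left (norm_nonneg _) hθ.2
    obtain ⟨h2, h3⟩ := hnr G hmet hG.lo hG.bd p w hp hnp (h1.trans hq)
    exact ⟨h2, h3, h1⟩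
  have hpS : p ∈ segment ℝ p q := left_mem_segment ℝ p q
  have hqS : q ∈ segment ℝ p q := right_mem_segment ℝ p q
  have hcd := GLP_smooth hF t
  have hdiff : ∀ w ∈ segment ℝ p q, DifferentiableAt ℝ (Φ t) w := fun w _ => (hcd.differentiable (by simp)).differentiableAt
  have hcd1 : ContDiff ℝ ∞ (fderiv ℝ (Φ t)) := (contDiff_infty_iff_fderiv.1 hcd).2
  have hdiff1 : ∀ w ∈ segment ℝ p q, DifferentiableAt ℝ (fderiv ℝ (Φ t)) w :=
    fun w _ => (hcd1.differentiable (by simp)).differentiableAt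
  have hb1 : ∀ w ∈ segment ℝ p q, ‖fderiv ℝ (Φ t) w‖ ≤ E := by
    intro w hw
    obtain ⟨w1, w2, -⟩ := hseg w hw
    have h := (hD G Φ hG hF w t w1 w2 ht 1 (by norm_num)).1
    rw [← norm_iteratedFDeriv_one]
    exact h.trans hED
  have hb2 : ∀ w ∈ segment ℝ p q, ‖fderiv ℝ (fderiv ℝ (Φ t)) w‖ ≤ E := by
    intro w hw
    obtain ⟨w1, w2, -⟩ := hseg w hw
    have h := (hD G Φ hG hF w t w1 w2 ht 2 le_rfl).1
    rw [← norm_iteratedFDeriv_one, norm_iteratedFDeriv_fderiv]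
    exact h.trans hED
  have hconv : Convex ℝ (segment ℝ p q) := convex_segment p q
  have r1 : ‖Φ t q - Φ t p‖ ≤ E * ‖q - p‖ := hconv.norm_image_sub_le_of_norm_fderiv_le hdiff hb1 hpS hqS
  have r3' : ∀ w ∈ segment ℝ p q, ‖fderiv ℝ (Φ t) w - fderiv ℝ (Φ t) p‖ ≤ E * ‖q - p‖ := by
    intro w hw
    refine (hconv.norm_image_sub_le_of_norm_fderiv_le hdiff1 hb2 hpS hw).trans ?_
    exact mul_le_mul_of_nonneg_left (hseg w hw).2.2 (by positivity)
  have r5 : ‖Φ t q - Φ t p - fderiv ℝ (Φ t) p (q - p)‖ ≤ E * ‖q - p‖ * ‖q - p‖ :=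
    hconv.norm_image_sub_le_of_norm_fderiv_le' hdiff r3' hpS hqS
  -- in time
  have hTc : Convex ℝ (Icc (-T) T) := convex_Icc _ _
  have htm : t ∈ Icc (-T) T := abs_le.1 ht
  have hsm : s ∈ Icc (-T) T := abs_le.1 hs
  have r2 : ‖Φ t p - Φ s p‖ ≤ E * ‖t - s‖ := by
    refine hTc.norm_image_sub_le_of_norm_hasDerivWithin_le (f := fun s => Φ s p) (f' := fun τ => XH G (Φ τ p)) ?_ ?_ hsm htm
    · intro τ _
      exact (hF.deriv τ p).hasDerivWithinAt
    · intro τ hτ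
      have h := (hD G Φ hG hF p τ hp' hnp' (abs_le.2 hτ) 0 (by norm_num)).2
      rw [norm_iteratedFDeriv_zero] at h
      exact h.trans hED
  have r4 : ‖fderiv ℝ (Φ t) p - fderiv ℝ (Φ s) p‖ ≤ E ^ 2 * ‖t - s‖ := by
    refine hTc.norm_image_sub_le_of_norm_hasDerivWithin_le (f := fun s => fderiv ℝ (Φ s) p)
      (f' := fun τ => (fderiv ℝ (XH G) (Φ τ p)).comp (fderiv ℝ (Φ τ) p)) ?_ ?_ hsm htm
    · intro τ _
      exact (hC1.var p τ).hasDerivWithinAt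
    · intro τ hτ
      have h := hD G Φ hG hF p τ hp' hnp' (abs_le.2 hτ) 1 (by norm_num)
      rw [norm_iteratedFDeriv_one, norm_iteratedFDeriv_one] at h
      refine (ContinuousLinearMap.opNorm_comp_le _ _).trans ?_
      rw [pow_two]
      exact mul_le_mul (h.2.trans hED) (h.1.trans hED) (norm_nonneg _) (by positivity)
  rw [Real.norm_eq_abs] at r2 r4
  refine ⟨?_, ?_, ?_, r4, ?_⟩
  · exact r1.trans (mul_le_mul_of_nonneg_right hE2 (norm_nonneg _))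
  · exact r2.trans (mul_le_mul_of_nonneg_right hE2 (abs_nonneg _))
  · exact (r3' q hqS).trans (mul_le_mul_of_nonneg_right hE2 (norm_nonneg _))
  · refine r5.trans ?_
    rw [mul_assoc, ← pow_two]
    exact mul_le_mul_of_nonneg_right hE2 (by positivity)

end

end Pool.Agent.VD
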