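import Pool.Agent.helper94.VD.SpecDPR

/-!
# Row vd:DPL: products of the derivatives of exact Poincaré maps
-/

set_option autoImplicit false

open scoped ContDiff Topology InnerProductSpace ENNReal
open MeasureTheory Filter Set

namespace Pool.Agent.VD

theorem DPL_proof (hDDK : DDK_stmt) (hDCH : DCH_stmt) : DPL_stmt := by
  intro m C C' r c1 C1 e2 l Γ _ _ K G Φ D hr hG g y e κ F τ hC n k
  obtain ⟨hch, hdh, hid⟩ := hDCH (m + 1) C Γ K G Φ D hG
  have hdk := fun i => hDDK m C C' r Γ K G Φ D hr hG (y i) (hC.ys i) (e i) (κ i) (hC.fr i) (hC.ch i)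
  induction k with
  | zero =>
    have e0 : g (n + 0) * (g n)⁻¹ = 1 := by rw [add_zero, mul_inv_cancel]
    have e1 : ((0 : ℕ) : ℝ) * l = 0 := by rw [Nat.cast_zero, zero_mul]
    rw [e0, e1]
    refine ⟨((hid (y n)).1).symm, fun v => ?_⟩
    rw [(hid (y n)).2]
    exact (((hdk n).1 v).1).symm
  | succ k ih =>
    obtain ⟨ih1, ih2⟩ := ih
    have e0 : g (n + (k + 1)) * (g n)⁻¹ = (g (n + k + 1) * (g (n + k))⁻¹) * (g (n + k) * (g n)⁻¹) := by
      rw [← add_assoc]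
      group
    have e1 : ((k + 1 : ℕ) : ℝ) * l = l + (k : ℝ) * l := by
      push_cast
      ring
    obtain ⟨c1', c2'⟩ := hch (g (n + k) * (g n)⁻¹) (g (n + k + 1) * (g (n + k))⁻¹) l (k * l) (y n)
    rw [e0, e1]
    refine ⟨?_, fun v => ?_⟩
    · rw [c1', ← ih1]
      exact hC.yl (n + k)
    · have hv := (hdk n).1 v
      have h1 := hG.al (g (n + k) * (g n)⁻¹) (k * l) (y n) (fderiv ℝ (κ n) 0 v) hv.2.2
      rw [← ih1, hv.2.1] at h1
      have h2 := hdh (g (n + k) * (g n)⁻¹) (k * l) (y n) (fderiv ℝ (κ n) 0 v) hv.2.2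
      rw [← ih1] at h2
      have h3 := (hdk (n + k)).2.1 _ h1 h2
      have h4 : pl (fun i => fderiv ℝ (F (n + i)) 0) (k + 1) v = fderiv ℝ (F (n + k)) 0 (pl (fun i => fderiv ℝ (F (n + i)) 0) k v) := rfl
      rw [h4, ih2 v, (hC.tr (n + k)).der, h3, c2', ← ih1]
      rfl

end Pool.Agent.VD
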